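import Pool.Agent.P8H7.GV.Tr
import Pool.Agent.N469.GG.Deg

set_option autoImplicit false

/-! Prime pairs with a given difference, for almost all the differences in a thin family. -/

namespace Pool.Agent.P8H7.GV
open Finset
open Pool.Agent.H560R3.GB (energy)
open Pool.Agent.H373R2.T7 (lamI lamzI ev_L' ev_log')
open Pool.Agent.W93.TD (HLs)
open Pool.Agent.TH935.GF (En)

set_option maxHeartbeats 1000000 in
/-- prime pairs `p ≤ N / 2`, `p + a` for almost all members `a` of a thin family -/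
theorem pair_nat (h U₁ : ℕ) : ∀ B C U : ℕ, ∃ N₀ : ℕ, ∀ N : ℕ, N₀ ≤ N → ∀ (x : ℕ) (s : ℕ → ℕ),
      (∀ m ∈ Icc 1 x, s m ≤ B * N ∧ 2 ∣ s m) →
      (energy h x s : ℝ) * N ≤ Real.log N ^ C * (x : ℝ) ^ (2 * h) →
      ∀ S : Finset ℕ, S ⊆ Icc 1 x →
      (∀ m ∈ S, ¬ (2 ≤ s m → s m ≤ N → HLs (1 / 2) U₁ (N / 2) (fun _ : Fin 1 => s m))) →
      (S.card : ℝ) ≤ x / Real.log N ^ U := by
  classical
  intro B C U
  obtain ⟨U', hU'⟩ : ∃ U' : ℕ, U' = U + U₁ + 5 := ⟨_, rfl⟩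
  obtain ⟨B0, hlam⟩ := Pool.Agent.H560R3.GB.lam_e h (B + 1) C U'
  obtain ⟨E1, hE1⟩ : ∃ E1 : ℕ, E1 = 2 * B0 + U₁ + 7 := ⟨_, rfl⟩
  obtain ⟨n1, h1⟩ := hlam (E1 + 2)
  obtain ⟨n2, h2⟩ := Pool.Agent.W93.TD.det3 1 3 E1 U₁ le_rfl (1 / 2) (by norm_num) (by omega)
  obtain ⟨n3, h3⟩ := ev_L' 16
  refine ⟨n1 + 2 * n2 + n3 + 10, fun N hN x s hs hE S hSx hS => ?_⟩
  have c1 := h1 N (by omega)
  have c3 := h3 N (by omega)
  obtain ⟨M, hM⟩ : ∃ M : ℕ, M = N / 2 := ⟨_, rfl⟩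
  rw [← hM] at hS
  have c2 := h2 M (by omega)
  have hNr : (10 : ℝ) ≤ N := by exact_mod_cast (by omega : 10 ≤ N)
  have hN0 : (0 : ℝ) < N := by linarith
  obtain ⟨L, hLd⟩ : ∃ L, L = Real.log (N : ℝ) := ⟨_, rfl⟩
  obtain ⟨K, hKd⟩ : ∃ K, K = Real.log (M : ℝ) := ⟨_, rfl⟩
  rw [← hLd] at c1 c3 hE ⊢
  rw [← hKd] at c2
  have hL0 : 0 < L := by linarith
  have hM3 : (N : ℝ) ≤ 3 * M := by exact_mod_cast (by omega : N ≤ 3 * M)
  have hMN : (M : ℝ) ≤ N := by exact_mod_cast (by omega : M ≤ N)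
  have hM0 : (0 : ℝ) < M := by linarith
  have hKL : K ≤ L := by rw [hKd, hLd]; exact Real.log_le_log hM0 hMN
  have hLK : L / 2 ≤ K := by
    have e1 : Real.log (N : ℝ) ≤ Real.log (3 * M) := Real.log_le_log hN0 hM3
    rw [Real.log_mul (by norm_num) hM0.ne', ← hLd, ← hKd] at e1
    have e2 : Real.log 3 ≤ 2 := by
      have := Real.log_le_sub_one_of_pos (show (0 : ℝ) < 3 by norm_num)
      linarith
    linarith
  have hK8 : 8 ≤ K := by linarith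
  have hK0 : 0 < K := by linarith
  have hLK2 : L ≤ K ^ 2 := by nlinarith
  obtain ⟨z, hz⟩ : ∃ z, z = ⌈K ^ E1⌉₊ := ⟨_, rfl⟩
  have hz1 : K ^ E1 ≤ z := by rw [hz]; exact Nat.le_ceil _
  have hKE : 1 ≤ K ^ E1 := one_le_pow₀ (by linarith)
  have hz2 : (z : ℝ) ≤ K ^ (E1 + 1) := by
    have h5 : (z : ℝ) < K ^ E1 + 1 := by rw [hz]; exact Nat.ceil_lt_add_one (by positivity)
    rw [pow_succ]
    nlinarith
  have hz3 : L ^ B0 ≤ z := by
    refine le_trans ?_ hz1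
    calc L ^ B0 ≤ (K ^ 2) ^ B0 := pow_le_pow_left₀ hL0.le hLK2 _
      _ = K ^ (2 * B0) := (pow_mul _ _ _).symm
      _ ≤ K ^ E1 := pow_le_pow_right₀ (by linarith) (by omega)
  have hz4 : (z : ℝ) ≤ L ^ (E1 + 2) := by
    refine hz2.trans ?_
    calc K ^ (E1 + 1) ≤ L ^ (E1 + 1) := pow_le_pow_left₀ hK0.le hKL _
      _ ≤ L ^ (E1 + 2) := pow_le_pow_right₀ (by linarith) (by omega)
  have hen : Pool.Agent.H373R2.T7.energy h x (fun m => ((s m : ℕ) : ℤ)) = energy h x s := by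
    have := Pool.Agent.W93.GB.energy_eq h x s 0
    simpa using this
  have key := c1 x (fun m => ((s m : ℕ) : ℤ)) (by
      intro m hm
      have h5 := (hs m hm).1
      have h6 : ((s m : ℕ) : ℤ) ≤ (B : ℤ) * N := by exact_mod_cast h5
      have h7 : (0 : ℤ) ≤ N := Int.natCast_nonneg _
      have h8 : (0 : ℤ) ≤ ((s m : ℕ) : ℤ) := Int.natCast_nonneg _
      rw [abs_of_nonneg h8]
      push_cast
      linarith) (by rw [hen]; exact hE) M (by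
      calc M ≤ N := by omega
        _ ≤ (B + 1) * N := Nat.le_mul_of_pos_left N (by omega)) z hz3 hz4
    (fun a => if a ∈ Icc 1 M then (((ArithmeticFunction.vonMangoldt a : ℝ) / L : ℝ) : ℂ) else 0) (by
      intro a
      split_ifs with ha
      · rw [mem_Icc] at ha
        rw [Complex.norm_real, Real.norm_eq_abs, abs_div, abs_of_nonneg ArithmeticFunction.vonMangoldt_nonneg,
          abs_of_pos hL0, div_le_one hL0, hLd]
        refine ArithmeticFunction.vonMangoldt_le_log.trans ?_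
        apply Real.log_le_log (by exact_mod_cast ha.1)
        exact_mod_cast ha.2.trans (by omega : M ≤ N)
      · rw [norm_zero]; exact zero_le_one)
  have h6 : ∀ m ∈ Icc 1 x, ‖∑ a ∈ Icc 1 M,
      (if a ∈ Icc 1 M then (((ArithmeticFunction.vonMangoldt a : ℝ) / L : ℝ) : ℂ) else 0) *
      ((lamI ((a : ℤ) + ((s m : ℕ) : ℤ)) - lamzI z ((a : ℤ) + ((s m : ℕ) : ℤ)) : ℝ) : ℂ)‖ =
      |∑ n ∈ Icc 1 M, ArithmeticFunction.vonMangoldt n *
        (lamI ((n : ℤ) + ((s m : ℕ) : ℤ)) - lamzI z ((n : ℤ) + ((s m : ℕ) : ℤ)))| / L := by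
    intro m _
    have h8 : (∑ a ∈ Icc 1 M,
      (if a ∈ Icc 1 M then (((ArithmeticFunction.vonMangoldt a : ℝ) / L : ℝ) : ℂ) else 0) *
      ((lamI ((a : ℤ) + ((s m : ℕ) : ℤ)) - lamzI z ((a : ℤ) + ((s m : ℕ) : ℤ)) : ℝ) : ℂ)) =
      (((∑ a ∈ Icc 1 M, ArithmeticFunction.vonMangoldt a *
        (lamI ((a : ℤ) + ((s m : ℕ) : ℤ)) - lamzI z ((a : ℤ) + ((s m : ℕ) : ℤ)))) / L : ℝ) : ℂ) := by
      rw [sum_div, Complex.ofReal_sum]
      apply sum_congr rfl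
      intro a ha
      rw [if_pos ha, ← Complex.ofReal_mul]
      congr 1
      ring
    rw [h8, Complex.norm_real, Real.norm_eq_abs, abs_div, abs_of_pos hL0]
  rw [sum_congr rfl h6, ← sum_div, div_le_iff₀ hL0] at key
  -- lower bound for the bad members
  have hbad : ∀ m ∈ S, (1 / 2) * ((M : ℝ) / K ^ (U₁ + 2)) ≤ |∑ n ∈ Icc 1 M, ArithmeticFunction.vonMangoldt n *
        (lamI ((n : ℤ) + ((s m : ℕ) : ℤ)) - lamzI z ((n : ℤ) + ((s m : ℕ) : ℤ)))| := by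
    intro m hm
    by_contra hcon
    push Not at hcon
    have h9 := hS m hm
    push Not at h9
    obtain ⟨g1, g2, g3⟩ := h9
    apply g3
    refine c2 z hz1 hz2 (fun _ => s m) (fun _ => ?_) (fun _ => by omega) (fun i j hij => absurd (Subsingleton.elim i j) hij) ?_
    · omega
    · simp only [univ_unique, Fin.default_eq_zero, Fin.isValue, prod_const, card_singleton, pow_one]
      exact hcon.le
  have hsum : (S.card : ℝ) * ((1 / 2) * ((M : ℝ) / K ^ (U₁ + 2))) ≤ N * x / L ^ U' * L := by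
    refine le_trans ?_ key
    calc (S.card : ℝ) * ((1 / 2) * ((M : ℝ) / K ^ (U₁ + 2))) = ∑ _m ∈ S, ((1 / 2) * ((M : ℝ) / K ^ (U₁ + 2))) := by
          rw [sum_const, nsmul_eq_mul]
      _ ≤ ∑ m ∈ S, |∑ n ∈ Icc 1 M, ArithmeticFunction.vonMangoldt n *
        (lamI ((n : ℤ) + ((s m : ℕ) : ℤ)) - lamzI z ((n : ℤ) + ((s m : ℕ) : ℤ)))| := sum_le_sum hbad
      _ ≤ _ := sum_le_sum_of_subset_of_nonneg hSx fun _ _ _ => abs_nonneg _
  have hlow : (N : ℝ) / (6 * L ^ (U₁ + 2)) ≤ (1 / 2) * ((M : ℝ) / K ^ (U₁ + 2)) := by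
    have e1 : (M : ℝ) / L ^ (U₁ + 2) ≤ M / K ^ (U₁ + 2) :=
      div_le_div_of_nonneg_left hM0.le (by positivity) (pow_le_pow_left₀ hK0.le hKL _)
    have e2 : (N : ℝ) / (6 * L ^ (U₁ + 2)) ≤ (1 / 2) * ((M : ℝ) / L ^ (U₁ + 2)) := by
      rw [div_le_iff₀ (by positivity)]
      have e3 : (1 / 2) * ((M : ℝ) / L ^ (U₁ + 2)) * (6 * L ^ (U₁ + 2)) = 3 * M := by field_simp; norm_num
      rw [e3]
      exact hM3
    linarith
  have hx0 : (0 : ℝ) ≤ x := Nat.cast_nonneg _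
  have hfin : (S.card : ℝ) * ((N : ℝ) / (6 * L ^ (U₁ + 2))) ≤ N * x / L ^ U' * L :=
    (mul_le_mul_of_nonneg_left hlow (Nat.cast_nonneg _)).trans hsum
  have h10 : (S.card : ℝ) ≤ N * x / L ^ U' * L / ((N : ℝ) / (6 * L ^ (U₁ + 2))) := by
    rw [le_div_iff₀ (by positivity)]
    exact hfin
  refine h10.trans ?_
  have e4 : (N : ℝ) * x / L ^ U' * L / ((N : ℝ) / (6 * L ^ (U₁ + 2))) = (6 / L ^ 2) * (x / L ^ U) := by
    have e5 : L ^ U' = L ^ U * L ^ (U₁ + 2) * L * L ^ 2 := by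
      rw [hU']
      ring
    rw [e5]
    field_simp
  rw [e4]
  have h11 : 6 / L ^ 2 ≤ 1 := by
    rw [div_le_one (by positivity)]
    nlinarith
  have h12 : 0 ≤ (x : ℝ) / L ^ U := by positivity
  nlinarith

/-- prime pairs near almost all members of a thin family -/
theorem pair_near (h B C W U U₁ : ℕ) :
    ∃ N₀ : ℕ, ∀ N : ℕ, N₀ ≤ N → ∀ (ι : Type) [Fintype ι] (v : ι → ℤ),
      (∀ i, v i ≤ B * N) →
      (En h v : ℝ) * N ≤ Real.log N ^ C * (Fintype.card ι : ℝ) ^ (2 * h) →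
      ∀ S : Finset ι, (∀ i ∈ S, ∃ m : ℕ, 0 < m ∧ Even m ∧ |(((m : ℤ) - v i : ℤ) : ℝ)| ≤ Real.log N ^ W ∧
        ¬ (2 ≤ m → m ≤ N → HLs (1 / 2) U₁ (N / 2) (fun _ : Fin 1 => m))) →
      (S.card : ℝ) ≤ Fintype.card ι / Real.log N ^ U :=
  nbhd h B C W U (fun N m => 2 ≤ m → m ≤ N → HLs (1 / 2) U₁ (N / 2) (fun _ : Fin 1 => m))
    fun B U => transfer h B C U (fun N m => 2 ≤ m → m ≤ N → HLs (1 / 2) U₁ (N / 2) (fun _ : Fin 1 => m))
      (pair_nat h U₁)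

end Pool.Agent.P8H7.GV
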