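import Pool.Agent.P8H7.GV.Fam
import Pool.Agent.TH872.GQ.Fam
import Pool.Agent.Results.MP_443e5f_co.AlmostAllVertices

set_option autoImplicit false

/-! Almost all the vertices in a thin family have many neighbours in the Goldbach graphs. -/

namespace Pool.Agent.P8H7.GV
open Finset
open Pool.Agent.H373R2.T7 (lamI lamzI ev_L' ev_log')
open Pool.Agent.W93.TD (HLs)
open Pool.Agent.W93.PG (WinP)
open Pool.Agent.TH935.GF (En)
open Pool.Agent.N469.GG (Nb)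
open Pool.Agent.TH872.Sq (SD qv qv_le)

/-- for almost all members of a thin family all the vertices near the member have many neighbours -/
theorem thin (c₁ : ℝ) (n₁ : ℕ)
    (hdeg : ∀ n : ℕ, n₁ ≤ n →
      (c₁ * (n / Real.log n ^ 2) ≤ ((Nb n 0).card : ℝ)) ∧
      (∀ U a : ℕ, Even a → 2 ≤ a → a ≤ n → HLs (1 / 2) U (n / 2) (fun _ : Fin 1 => a) →
        c₁ * (n / Real.log n ^ 2) ≤ ((Nb n a).card : ℝ)) ∧
      (∀ a : ℕ, Even a → n < a → a ≤ 2 * n → WinP (1 / 2) 1 a → c₁ * (n / Real.log n ^ 2) ≤ ((Nb n a).card : ℝ)))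
    (h B D A W : ℕ) (hh : 1 ≤ h) :
    ∃ n₀ : ℕ, ∀ n : ℕ, n₀ ≤ n → ∀ (ι : Type) [Fintype ι] (v : ι → ℤ), (∀ i, v i ≤ B * n) →
      (En h v : ℝ) * n ≤ Real.log n ^ D * (Fintype.card ι : ℝ) ^ (2 * h) →
      ∀ S : Finset ι, (∀ i ∈ S, ∃ a : ℕ, |(((a : ℤ) - v i : ℤ) : ℝ)| ≤ Real.log n ^ A ∧ Even a ∧ a ≤ 2 * n ∧
        ((Nb n a).card : ℝ) < c₁ * (n / Real.log n ^ 2)) →
      (S.card : ℝ) ≤ Fintype.card ι / Real.log n ^ W := by
  classical
  obtain ⟨N1, h1⟩ := pair_near h B D A (W + 1) 0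
  obtain ⟨N2, h2⟩ := Pool.Agent.R459.near_even h 1 B D A (W + 1) 0 hh (1 / 2) (by norm_num)
    (fun m => WinP (1 / 2) 1 m) (fun m _ _ hm => hm)
  obtain ⟨N3, h3⟩ := ev_L' 2
  refine ⟨N1 + N2 + N3 + n₁, fun n hn ι _ v hv hE S hS => ?_⟩
  have hL := h3 n (by omega)
  obtain ⟨d0, d1, d2⟩ := hdeg n (by omega)
  obtain ⟨L, hLd⟩ : ∃ L, L = Real.log (n : ℝ) := ⟨_, rfl⟩
  have b1 := h1 n (by omega) ι v hv hE
    (S.filter fun i => ∃ m : ℕ, 0 < m ∧ Even m ∧ |(((m : ℤ) - v i : ℤ) : ℝ)| ≤ Real.log n ^ A ∧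
        ¬ (2 ≤ m → m ≤ n → HLs (1 / 2) 0 (n / 2) (fun _ : Fin 1 => m))) (fun i hi => (mem_filter.1 hi).2)
  have b2 := h2 n (by omega) ι v hv hE
    (S.filter fun i => ∃ m : ℕ, 0 < m ∧ Even m ∧ |(((m : ℤ) - v i : ℤ) : ℝ)| ≤ Real.log n ^ A ∧
        ¬ WinP (1 / 2) 1 m) (fun i hi => (mem_filter.1 hi).2)
  have hsub : S ⊆ (S.filter fun i => ∃ m : ℕ, 0 < m ∧ Even m ∧ |(((m : ℤ) - v i : ℤ) : ℝ)| ≤ Real.log n ^ A ∧
        ¬ (2 ≤ m → m ≤ n → HLs (1 / 2) 0 (n / 2) (fun _ : Fin 1 => m))) ∪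
      (S.filter fun i => ∃ m : ℕ, 0 < m ∧ Even m ∧ |(((m : ℤ) - v i : ℤ) : ℝ)| ≤ Real.log n ^ A ∧
        ¬ WinP (1 / 2) 1 m) := by
    intro i hi
    obtain ⟨a, a1, a2, a3, a4⟩ := hS i hi
    have ha0 : a ≠ 0 := by
      rintro rfl
      linarith
    have ha1 : 2 ≤ a := by
      obtain ⟨r, hr⟩ := a2
      omega
    rw [mem_union, mem_filter, mem_filter]
    rcases le_or_gt a n with han | han
    · left
      refine ⟨hi, a, by omega, a2, a1, fun hcon => ?_⟩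
      have := d1 0 a a2 ha1 han (hcon ha1 han)
      linarith
    · right
      refine ⟨hi, a, by omega, a2, a1, fun hcon => ?_⟩
      have := d2 a a2 han a3 hcon
      linarith
  have hc : (S.card : ℝ) ≤ Fintype.card ι / Real.log n ^ (W + 1) + Fintype.card ι / Real.log n ^ (W + 1) := by
    have e1 : (S.card : ℝ) ≤ ((S.filter fun i => ∃ m : ℕ, 0 < m ∧ Even m ∧ |(((m : ℤ) - v i : ℤ) : ℝ)| ≤ Real.log n ^ A ∧
        ¬ (2 ≤ m → m ≤ n → HLs (1 / 2) 0 (n / 2) (fun _ : Fin 1 => m))).card : ℝ) +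
        ((S.filter fun i => ∃ m : ℕ, 0 < m ∧ Even m ∧ |(((m : ℤ) - v i : ℤ) : ℝ)| ≤ Real.log n ^ A ∧
        ¬ WinP (1 / 2) 1 m).card : ℝ) := by
      exact_mod_cast (card_le_card hsub).trans (card_union_le _ _)
    exact e1.trans (add_le_add b1 b2)
  refine hc.trans ?_
  rw [← hLd] at hL ⊢
  have hL0 : 0 < L := by linarith
  have hι : (0 : ℝ) ≤ Fintype.card ι / L ^ W := by positivity
  have e : (Fintype.card ι : ℝ) / L ^ (W + 1) = Fintype.card ι / L ^ W / L := by rw [pow_succ, div_div]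
  rw [e]
  have e2 : (Fintype.card ι : ℝ) / L ^ W / L ≤ Fintype.card ι / L ^ W / 2 :=
    div_le_div_of_nonneg_left hι (by norm_num) hL
  linarith

/-- values of quadratic polynomials at integers with restricted digits -/
theorem quad (c₁ : ℝ) (n₁ : ℕ)
    (hdeg : ∀ n : ℕ, n₁ ≤ n →
      (c₁ * (n / Real.log n ^ 2) ≤ ((Nb n 0).card : ℝ)) ∧
      (∀ U a : ℕ, Even a → 2 ≤ a → a ≤ n → HLs (1 / 2) U (n / 2) (fun _ : Fin 1 => a) →
        c₁ * (n / Real.log n ^ 2) ≤ ((Nb n a).card : ℝ)) ∧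
      (∀ a : ℕ, Even a → n < a → a ≤ 2 * n → WinP (1 / 2) 1 a → c₁ * (n / Real.log n ^ 2) ≤ ((Nb n a).card : ℝ)))
    (b B D A W : ℕ) (hb : 2 ≤ b) (κ β : ℤ) (hκ : κ ≠ 0) :
    ∃ n₀ : ℕ, ∀ n : ℕ, n₀ ≤ n → ∀ k : ℕ, b ^ (2 * k) ≤ B * n → (n : ℝ) ≤ Real.log n ^ D * (b : ℝ) ^ (2 * k) →
      ∀ E : ℕ → Finset ℕ, (∀ i < k, E i ⊆ range b ∧ 2 ≤ (E i).card) → ∀ c : ℤ, |c| ≤ B * n →
      ∀ P : ℕ → Prop, [DecidablePred P] → (∀ m, P m → ∃ a : ℕ, |(((a : ℤ) - (c + κ * (m : ℤ) ^ 2 + β * m) : ℤ) : ℝ)| ≤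
        Real.log n ^ A ∧ Even a ∧ a ≤ 2 * n ∧ ((Nb n a).card : ℝ) < c₁ * (n / Real.log n ^ 2)) →
      ((((range (b ^ k)).filter fun m : ℕ => ∀ i < k, m / b ^ i % b ∈ E i).filter P).card : ℝ) ≤
        (((range (b ^ k)).filter fun m : ℕ => ∀ i < k, m / b ^ i % b ∈ E i).card : ℝ) / Real.log n ^ W := by
  classical
  obtain ⟨p, C, hC, hE0⟩ := Pool.Agent.TH872.GQ.quad_energy b hb κ β hκ
  have hp : 1 ≤ p := by
    rcases Nat.eq_zero_or_pos p with hp | hp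
    · exfalso
      obtain ⟨K3, hK3⟩ := exists_nat_ge C
      obtain ⟨k, hk⟩ : ∃ k, k = K3 + 1 := ⟨_, rfl⟩
      have h1 := hE0 k (fun _ => range b) (fun i _ => ⟨subset_rfl, by rw [card_range]; exact hb⟩) 0
      have h2 : (1 : ℝ) ≤ Pool.Agent.TH212.EH.En p
          (fun i : {n // n ∈ SD b (fun _ => range b) k} => 0 + qv κ β i.1) := by
        have : 1 ≤ Pool.Agent.TH212.EH.En p (fun i : {n // n ∈ SD b (fun _ => range b) k} => 0 + qv κ β i.1) := by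
          unfold Pool.Agent.TH212.EH.En
          rw [Nat.one_le_iff_ne_zero, Nat.card_ne_zero]
          subst hp
          refine ⟨⟨⟨(fun i => i.elim0, fun i => i.elim0), by simp⟩⟩, inferInstance⟩
        exact_mod_cast this
      rw [hp, mul_zero, pow_zero, mul_one] at h1
      rw [hp] at h2
      have h3 : (k : ℝ) < ((b ^ (2 * k) : ℕ) : ℝ) := by
        have : k < b ^ (2 * k) := lt_of_le_of_lt (by omega : k ≤ 2 * k) (Nat.lt_pow_self (by omega))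
        exact_mod_cast this
      have h4 : (k : ℝ) = K3 + 1 := by rw [hk]; push_cast; ring
      have h5 : (0 : ℝ) ≤ ((b ^ (2 * k) : ℕ) : ℝ) := Nat.cast_nonneg _
      nlinarith
    · exact hp
  obtain ⟨q, hq⟩ : ∃ q : ℕ, q = κ.natAbs + β.natAbs := ⟨_, rfl⟩
  obtain ⟨n2, h2⟩ := thin c₁ n₁ hdeg p (B + q * B) (D + 1) A W hp
  obtain ⟨n3, h3⟩ := ev_L' (C + 1)
  refine ⟨n2 + n3 + 3, fun n hn k hk1 hk2 E hE c hc P _ hP => ?_⟩
  have hL := h3 n (by omega)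
  obtain ⟨L, hLd⟩ : ∃ L, L = Real.log (n : ℝ) := ⟨_, rfl⟩
  have c2 := h2 n (by omega) {m // m ∈ SD b E k} (fun i => c + qv κ β i.1)
  rw [← hLd] at hL hk2 c2 hP ⊢
  have hL0 : 0 < L := by linarith
  have key := c2 (by
      intro i
      have h1 : (i.1 : ℕ) < b ^ k := by
        have h := i.2
        unfold SD at h
        exact mem_range.1 (mem_filter.1 h).1
      have h4 := qv_le κ β b k i.1 h1
      rw [← hq] at h4
      have h5 : ((b : ℤ) ^ (2 * k)) ≤ B * n := by exact_mod_cast hk1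
      have h6 : (q : ℤ) * (b : ℤ) ^ (2 * k) ≤ q * (B * n) := mul_le_mul_of_nonneg_left h5 (Int.natCast_nonneg _)
      have h7 := le_abs_self c
      have h8 := le_abs_self (qv κ β i.1)
      push_cast
      nlinarith) (by
      have h1 := hE0 k E hE c
      obtain ⟨Z, hZ⟩ : ∃ Z : ℝ, Z = (Fintype.card {n // n ∈ SD b E k} : ℝ) ^ (2 * p) := ⟨_, rfl⟩
      have hZ0 : 0 ≤ Z := by rw [hZ]; positivity
      obtain ⟨en, hen⟩ : ∃ en : ℝ, en = (En p (fun i : {m // m ∈ SD b E k} => c + qv κ β i.1) : ℝ) := ⟨_, rfl⟩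
      have hen0 : 0 ≤ en := by rw [hen]; exact Nat.cast_nonneg _
      have h1' : en * (b : ℝ) ^ (2 * k) ≤ C * Z := by
        rw [hen, hZ]
        refine le_trans (le_of_eq ?_) h1
        push_cast
        rfl
      rw [← hen, ← hZ]
      calc en * n ≤ en * (L ^ D * (b : ℝ) ^ (2 * k)) := mul_le_mul_of_nonneg_left hk2 hen0
        _ = L ^ D * (en * (b : ℝ) ^ (2 * k)) := by ring
        _ ≤ L ^ D * (C * Z) := mul_le_mul_of_nonneg_left h1' (by positivity)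
        _ ≤ L ^ D * (L * Z) := by
          apply mul_le_mul_of_nonneg_left _ (by positivity)
          exact mul_le_mul_of_nonneg_right (by linarith) hZ0
        _ = L ^ (D + 1) * Z := by ring)
    (univ.filter fun i : {m // m ∈ SD b E k} => P i.1) (by
      intro i hi
      obtain ⟨a, ha⟩ := hP i.1 (mem_filter.1 hi).2
      refine ⟨a, ?_⟩
      have e : c + κ * (i.1 : ℤ) ^ 2 + β * i.1 = c + qv κ β i.1 := by unfold qv; ring
      rw [e] at ha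
      exact ha)
  have hfc : (Fintype.card {m // m ∈ SD b E k} : ℝ) = (SD b E k).card := by
    rw [Fintype.card_coe]
  rw [hfc] at key
  exact Pool.Agent.TH872.GQ.conv (SD b E k) P (fun i => P i.1) (fun i hi => hi) _ key

end Pool.Agent.P8H7.GV
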