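import Pool.Agent.R459.Nbhd
import Pool.Agent.W93.TD5

set_option autoImplicit false

/-! Thin families: transfer and neighbourhoods for properties which depend on the scale. -/

namespace Pool.Agent.P8H7.GV
open Finset
open Pool.Agent.H560R3.GB (energy)
open Pool.Agent.TH935.GF (En)
open Pool.Agent.R459 (En_shift)

/-- From families of even natural numbers to arbitrary finite families of integers; the property may
depend on `N`. -/
theorem transfer (h B C U : ℕ) (P : ℕ → ℕ → Prop)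
    (H : ∀ B C U : ℕ, ∃ N₀ : ℕ, ∀ N : ℕ, N₀ ≤ N → ∀ (x : ℕ) (s : ℕ → ℕ),
      (∀ m ∈ Icc 1 x, s m ≤ B * N ∧ 2 ∣ s m) →
      (energy h x s : ℝ) * N ≤ Real.log N ^ C * (x : ℝ) ^ (2 * h) →
      ∀ S : Finset ℕ, S ⊆ Icc 1 x → (∀ m ∈ S, ¬ P N (s m)) →
      (S.card : ℝ) ≤ x / Real.log N ^ U) :
    ∃ N₀ : ℕ, ∀ N : ℕ, N₀ ≤ N → ∀ (ι : Type) [Fintype ι] (v : ι → ℤ),
      (∀ i, v i ≤ B * N) →
      (En h v : ℝ) * N ≤ Real.log N ^ C * (Fintype.card ι : ℝ) ^ (2 * h) →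
      ∀ S : Finset ι, (∀ i ∈ S, 0 < v i ∧ Even (v i) ∧ ¬ P N (v i).toNat) →
      (S.card : ℝ) ≤ Fintype.card ι / Real.log N ^ U := by
  classical
  obtain ⟨N₀, h0⟩ := H B (C + 2 * h * U) U
  obtain ⟨N₁, h1⟩ := Pool.Agent.H373R2.T7.ev_L' 1
  refine ⟨N₀ + N₁ + 3, fun N hN ι _ v hv hE S hS => ?_⟩
  have hL := h1 N (by omega)
  have hL0 : 0 < Real.log (N : ℝ) := by linarith
  have hN0 : (0 : ℝ) < N := by exact_mod_cast (by omega : 0 < N)
  obtain ⟨L, hLd⟩ : ∃ L, L = Real.log (N : ℝ) := ⟨_, rfl⟩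
  have c0 := h0 N (by omega)
  rw [← hLd] at hL hL0 hE c0 ⊢
  obtain ⟨T, hT⟩ : ∃ T : Finset ι, T = univ.filter (fun i => 0 < v i ∧ Even (v i)) := ⟨_, rfl⟩
  have hST : S ⊆ T := by
    intro i hi
    rw [hT, mem_filter]
    exact ⟨mem_univ _, (hS i hi).1, (hS i hi).2.1⟩
  have hSTc : (S.card : ℝ) ≤ T.card := by exact_mod_cast card_le_card hST
  rcases le_or_gt (T.card : ℝ) (Fintype.card ι / L ^ U) with hsm | hbig
  · exact hSTc.trans hsm
  have hT0 : 0 < T.card := by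
    have : (0 : ℝ) ≤ Fintype.card ι / L ^ U := by positivity
    exact_mod_cast this.trans_lt hbig
  obtain ⟨i₀, hi₀⟩ := card_pos.1 hT0
  obtain ⟨x, hx⟩ : ∃ x, x = T.card := ⟨_, rfl⟩
  obtain ⟨e⟩ : Nonempty ((Icc 1 x : Finset ℕ) ≃ T) := ⟨Finset.equivOfCardEq (by rw [Nat.card_Icc, hx]; omega)⟩
  obtain ⟨f, hf⟩ : ∃ f : ℕ → ι, f = fun m => if hm : m ∈ Icc 1 x then (e ⟨m, hm⟩ : ι) else i₀ := ⟨_, rfl⟩
  have hf1 : ∀ m (hm : m ∈ Icc 1 x), f m = (e ⟨m, hm⟩ : ι) := by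
    intro m hm
    rw [hf]
    simp only
    rw [dif_pos hm]
  have hfT : ∀ m ∈ Icc 1 x, f m ∈ T := by
    intro m hm
    rw [hf1 m hm]
    exact (e ⟨m, hm⟩).2
  have hfinj : ∀ m ∈ Icc 1 x, ∀ m' ∈ Icc 1 x, f m = f m' → m = m' := by
    intro m hm m' hm' h2
    rw [hf1 m hm, hf1 m' hm'] at h2
    have h3 := e.injective (Subtype.ext h2)
    exact congrArg Subtype.val h3
  have hfsurj : ∀ i ∈ T, ∃ m ∈ Icc 1 x, f m = i := by
    intro i hi
    refine ⟨(e.symm ⟨i, hi⟩ : ℕ), (e.symm ⟨i, hi⟩).2, ?_⟩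
    rw [hf1 _ (e.symm ⟨i, hi⟩).2]
    simp
  obtain ⟨s, hs⟩ : ∃ s : ℕ → ℕ, s = fun m => (v (f m)).toNat := ⟨_, rfl⟩
  have hsv : ∀ m ∈ Icc 1 x, ((s m : ℕ) : ℤ) = v (f m) := by
    intro m hm
    have h2 := hfT m hm
    rw [hT, mem_filter] at h2
    rw [hs]
    exact Int.toNat_of_nonneg h2.2.1.le
  have hxr : (T.card : ℝ) = x := by rw [hx]
  rw [hxr] at hbig
  have hιx : (Fintype.card ι : ℝ) ≤ x * L ^ U := by
    rw [div_lt_iff₀ (by positivity)] at hbig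
    exact hbig.le
  have hen : energy h x s ≤ En h v := by
    unfold energy En
    rw [Nat.card_eq_fintype_card, Fintype.card_subtype]
    apply card_le_card_of_injOn (fun q => (fun j => f (q.1 j), fun j => f (q.2 j)))
    · intro q hq
      rw [mem_coe, mem_filter, mem_product, Fintype.mem_piFinset, Fintype.mem_piFinset] at hq
      rw [mem_coe, mem_filter]
      refine ⟨mem_univ _, ?_⟩
      simp only
      have e1 : ∑ j, v (f (q.1 j)) = ((∑ j, s (q.1 j) : ℕ) : ℤ) := by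
        push_cast
        exact sum_congr rfl fun j _ => (hsv _ (hq.1.1 j)).symm
      have e2 : ∑ j, v (f (q.2 j)) = ((∑ j, s (q.2 j) : ℕ) : ℤ) := by
        push_cast
        exact sum_congr rfl fun j _ => (hsv _ (hq.1.2 j)).symm
      rw [e1, e2, hq.2]
    · intro q hq q' hq' h2
      rw [mem_coe, mem_filter, mem_product, Fintype.mem_piFinset, Fintype.mem_piFinset] at hq hq'
      simp only [Prod.mk.injEq] at h2
      apply Prod.ext
      · funext j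
        exact hfinj _ (hq.1.1 j) _ (hq'.1.1 j) (congrFun h2.1 j)
      · funext j
        exact hfinj _ (hq.1.2 j) _ (hq'.1.2 j) (congrFun h2.2 j)
  have henr : (energy h x s : ℝ) ≤ En h v := by exact_mod_cast hen
  have key := c0 x s (by
    intro m hm
    have h2 := hfT m hm
    rw [hT, mem_filter] at h2
    have h3 := hsv m hm
    constructor
    · have h4 := hv (f m)
      rw [← h3] at h4
      exact_mod_cast h4
    · have h4 := h2.2.2.two_dvd
      rw [← h3] at h4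
      exact_mod_cast h4) (by
    calc (energy h x s : ℝ) * N ≤ En h v * N := mul_le_mul_of_nonneg_right henr hN0.le
      _ ≤ L ^ C * (Fintype.card ι : ℝ) ^ (2 * h) := hE
      _ ≤ L ^ C * (x * L ^ U) ^ (2 * h) := by gcongr
      _ = L ^ (C + 2 * h * U) * (x : ℝ) ^ (2 * h) := by
          rw [mul_pow, pow_add, ← pow_mul, mul_comm U (2 * h)]
          ring)
    ((Icc 1 x).filter (fun m => f m ∈ S)) (filter_subset _ _) (by
      intro m hm
      rw [mem_filter] at hm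
      have h2 := (hS _ hm.2).2.2
      rw [hs]
      exact h2)
  have hcard : S.card ≤ ((Icc 1 x).filter (fun m => f m ∈ S)).card := by
    refine le_trans (card_le_card ?_) (card_image_le (f := f))
    intro i hi
    obtain ⟨m, hm, hfm⟩ := hfsurj i (hST hi)
    rw [mem_image]
    exact ⟨m, mem_filter.2 ⟨hm, by rw [hfm]; exact hi⟩, hfm⟩
  have hxι : (x : ℝ) ≤ Fintype.card ι := by
    rw [hx]
    exact_mod_cast card_le_univ T
  calc (S.card : ℝ) ≤ ((Icc 1 x).filter (fun m => f m ∈ S)).card := by exact_mod_cast hcard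
    _ ≤ x / L ^ U := key
    _ ≤ Fintype.card ι / L ^ U := by gcongr

theorem nbhd (h B C W U : ℕ) (P : ℕ → ℕ → Prop)
    (H : ∀ B U : ℕ, ∃ N₀ : ℕ, ∀ N : ℕ, N₀ ≤ N → ∀ (ι : Type) [Fintype ι] (v : ι → ℤ),
      (∀ i, v i ≤ B * N) →
      (En h v : ℝ) * N ≤ Real.log N ^ C * (Fintype.card ι : ℝ) ^ (2 * h) →
      ∀ S : Finset ι, (∀ i ∈ S, 0 < v i ∧ Even (v i) ∧ ¬ P N (v i).toNat) →
      (S.card : ℝ) ≤ Fintype.card ι / Real.log N ^ U) :
    ∃ N₀ : ℕ, ∀ N : ℕ, N₀ ≤ N → ∀ (ι : Type) [Fintype ι] (v : ι → ℤ),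
      (∀ i, v i ≤ B * N) →
      (En h v : ℝ) * N ≤ Real.log N ^ C * (Fintype.card ι : ℝ) ^ (2 * h) →
      ∀ S : Finset ι, (∀ i ∈ S, ∃ m : ℕ, 0 < m ∧ Even m ∧ |(((m : ℤ) - v i : ℤ) : ℝ)| ≤ Real.log N ^ W ∧ ¬ P N m) →
      (S.card : ℝ) ≤ Fintype.card ι / Real.log N ^ U := by
  classical
  obtain ⟨n0, h0⟩ := H (B + 1) (U + W + 1)
  obtain ⟨n1, h1⟩ := Pool.Agent.H373R2.T7.ev_L' 3
  obtain ⟨n2, h2⟩ := Pool.Agent.H373R2.T7.ev_log' W 1
  refine ⟨n0 + n1 + n2 + 3, fun N hN ι _ v hv hE S hS => ?_⟩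
  have hL := h1 N (by omega)
  have hW := h2 N (by omega)
  have hN3 : (3 : ℝ) ≤ N := by exact_mod_cast (by omega : 3 ≤ N)
  obtain ⟨L, hLd⟩ : ∃ L, L = Real.log (N : ℝ) := ⟨_, rfl⟩
  have c0 := h0 N (by omega)
  rw [← hLd] at hL hW hE hS c0 ⊢
  rw [one_mul] at hW
  have hL0 : 0 < L := by linarith
  obtain ⟨Q, hQ⟩ : ∃ Q, Q = ⌊L ^ W⌋₊ := ⟨_, rfl⟩
  have hQ1 : (Q : ℝ) ≤ L ^ W := by rw [hQ]; exact Nat.floor_le (by positivity)
  have hsN : √(N : ℝ) ≤ N := by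
    rw [Real.sqrt_le_left (by linarith)]
    nlinarith
  have hQN : Q ≤ N := by exact_mod_cast hQ1.trans (hW.trans hsN)
  have key : ∀ s : ℤ, |s| ≤ Q → ∀ T : Finset ι, (∀ i ∈ T, 0 < v i + s ∧ Even (v i + s) ∧ ¬ P N (v i + s).toNat) →
      (T.card : ℝ) ≤ Fintype.card ι / L ^ (U + W + 1) := by
    intro s hs T hT
    have hs' := abs_le.1 hs
    refine c0 ι (fun i => v i + s) (fun i => ?_) (by rw [En_shift]; exact hE) T hT
    have h3 := hv i
    have h4 : (Q : ℤ) ≤ N := by exact_mod_cast hQN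
    push_cast
    linarith [hs'.2]
  have hsub : S ⊆ (Icc (-(Q : ℤ)) Q).biUnion (fun s => S.filter (fun i => 0 < v i + s ∧ Even (v i + s) ∧
      ¬ P N (v i + s).toNat)) := by
    intro i hi
    obtain ⟨m, m1, m2, m3, m4⟩ := hS i hi
    rw [mem_biUnion]
    have hms : |(m : ℤ) - v i| ≤ Q := by
      have h5 : (((|(m : ℤ) - v i|).toNat : ℕ) : ℝ) ≤ L ^ W := by
        refine le_trans (le_of_eq ?_) m3
        have h6 : (((|(m : ℤ) - v i|).toNat : ℕ) : ℤ) = |(m : ℤ) - v i| := Int.toNat_of_nonneg (abs_nonneg _)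
        have h7 := congrArg (Int.cast (R := ℝ)) h6
        rw [Int.cast_natCast] at h7
        rw [h7, Int.cast_abs]
      have h6 : (|(m : ℤ) - v i|).toNat ≤ Q := by rw [hQ]; exact Nat.le_floor h5
      omega
    refine ⟨(m : ℤ) - v i, ?_, ?_⟩
    · rw [mem_Icc]
      exact abs_le.1 hms
    · rw [mem_filter]
      have e : v i + ((m : ℤ) - v i) = m := by ring
      rw [e]
      refine ⟨hi, by exact_mod_cast m1, by exact_mod_cast m2, ?_⟩
      simpa using m4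
  have hc1 : (S.card : ℝ) ≤ ∑ s ∈ Icc (-(Q : ℤ)) Q, (Fintype.card ι / L ^ (U + W + 1) : ℝ) := by
    have h7 : S.card ≤ ∑ s ∈ Icc (-(Q : ℤ)) Q, (S.filter (fun i => 0 < v i + s ∧ Even (v i + s) ∧
        ¬ P N (v i + s).toNat)).card := (card_le_card hsub).trans card_biUnion_le
    have h8 : (S.card : ℝ) ≤ ∑ s ∈ Icc (-(Q : ℤ)) Q, ((S.filter (fun i => 0 < v i + s ∧ Even (v i + s) ∧
        ¬ P N (v i + s).toNat)).card : ℝ) := by exact_mod_cast h7
    refine h8.trans (sum_le_sum fun s hs => ?_)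
    rw [mem_Icc] at hs
    exact key s (abs_le.2 hs) _ (fun i hi => (mem_filter.1 hi).2)
  refine hc1.trans ?_
  rw [sum_const, nsmul_eq_mul]
  have hcard : ((Icc (-(Q : ℤ)) Q).card : ℝ) ≤ L ^ W * L := by
    rw [Int.card_Icc]
    have h9 : (((Q : ℤ) + 1 - -(Q : ℤ)).toNat : ℝ) = 2 * Q + 1 := by
      have : ((Q : ℤ) + 1 - -(Q : ℤ)).toNat = 2 * Q + 1 := by omega
      rw [this]
      push_cast
      ring
    rw [h9]
    have h10 : (1 : ℝ) ≤ L ^ W := one_le_pow₀ (by linarith)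
    nlinarith
  have hι : (0 : ℝ) ≤ Fintype.card ι := Nat.cast_nonneg _
  have hLU : 0 < L ^ (U + W + 1) := by positivity
  calc ((Icc (-(Q : ℤ)) Q).card : ℝ) * (Fintype.card ι / L ^ (U + W + 1))
      ≤ (L ^ W * L) * (Fintype.card ι / L ^ (U + W + 1)) := mul_le_mul_of_nonneg_right hcard (by positivity)
    _ = Fintype.card ι / L ^ U := by
        rw [pow_succ, pow_add]
        field_simp

end Pool.Agent.P8H7.GV
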